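import Pool.Agent.helper44.EX.Spec

/-!
# Project ex: module STP: the step of the induction
-/

set_option autoImplicit false

open Complex Metric Set Filter Topology MeasureTheory Pool.Agent.helper98.ILF

noncomputable section

namespace EX

theorem STP_pow {n : ℕ} (hn : 1 ≤ n) {u : ℂ} (hu : u ∈ ball (0 : ℂ) 1) : u ^ n ∈ ball (0 : ℂ) 1 := by
  rw [mem_ball_zero_iff] at hu ⊢
  rw [norm_pow]
  exact pow_lt_one₀ (norm_nonneg _) hu (by omega)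

theorem STP_iter (n j : ℕ) (c z : ℂ) : (ff n c)^[j + 1] z = (ff n c)^[j] (ff n c z) :=
  Function.iterate_succ_apply _ _ _

theorem STP (hMOB : MOB_stmt) (hRHO : RHO_stmt) (hUNF : UNF_stmt) (hVIS : VIS_stmt)
    (hINV : INV_stmt) : STP_stmt := by
  intro n c δ φ U g R1 R R2 hn V P a j G z₀ y ha hG hGf hz₀ hGz hy hy0
  obtain ⟨hr1, hr2, hr3, hr4⟩ := hRHO
  obtain ⟨-, -, hmt, hinj, -, -, -, -, -⟩ := hMOB a ha
  obtain ⟨-, -, hmt0, -, -, -, -, -, -⟩ := hMOB z₀ hz₀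
  have hGinj : InjOn G (ball 0 1) := by
    intro z hz w hw hzw
    have h1 := hGf z hz
    rw [hzw, hGf w hw] at h1
    exact (hinj hw hz (V.inj (hmt hw) (hmt hz) h1)).symm
  obtain ⟨ψ, w, hψ, hψ0, hw, hwn, hψw, hψf⟩ :=
    hUNF n c G z₀ y (by omega) hG hGinj hz₀ hGz hy hy0
  have hV : ∀ u ∈ ball (0 : ℂ) 1,
      (ff n c)^[j + 1] (ψ u) = φ (tau a (tau z₀ (u ^ n))) := by
    intro u hu
    rw [STP_iter, hψf u hu]
    exact hGf _ (hmt0 (STP_pow (by omega) hu))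
  have hU : ψ '' ball 0 1 ⊆ U := by
    refine hVIS n (j + 1) c ψ (φ '' ball 0 1) U (by omega) hψ.continuousOn hψ0 ?_ V.comp
    intro u hu
    rw [hV u hu]
    exact mem_image_of_mem _ (hmt (hmt0 (STP_pow (by omega) hu)))
  obtain ⟨θ, hθ, hθm, hφθ⟩ := hINV φ ψ (ball 0 1) (ball 0 1) isOpen_ball isOpen_ball V.hol V.inj hψ
    (hU.trans V.sub)
  have h0 : (0 : ℂ) ∈ ball (0 : ℂ) 1 := mem_ball_self one_pos
  have hθ0 : θ 0 = 0 := by
    apply V.inj (hθm h0) h0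
    rw [hφθ 0 h0, hψ0, V.zero]
  have hT : Thin δ θ := by
    refine ⟨hθ, hθm, ?_⟩
    intro z hz
    obtain ⟨b, hb, hbU, hbr⟩ := V.thin (θ z) (hθm hz) (by
      rw [hφθ z hz]
      exact hU (mem_image_of_mem _ hz))
    refine ⟨b, hb, ?_, hbr⟩
    rintro ⟨z', hz', rfl⟩
    apply hbU
    rw [hφθ z' hz']
    exact hU (mem_image_of_mem _ hz')
  have haw : θ w ∈ ball (0 : ℂ) 1 := hθm hw
  refine ⟨θ w, haw, by rw [hφθ w hw, hψw], ?_⟩
  intro hR1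
  have hw2 : R2 < ‖w‖ := by
    by_contra hcon
    push Not at hcon
    have h1 := P.con θ hT 0 h0 w hw (by rw [(hr2 w).1]; exact hcon)
    rw [hθ0, (hr2 (θ w)).1] at h1
    linarith
  have hw1 : ‖w‖ < 1 := by rwa [mem_ball_zero_iff] at hw
  have hz1 : ‖z₀‖ = ‖w‖ ^ n := by
    rw [← norm_pow, hwn, norm_neg]
  have hR0 : 0 < R := P.r0.trans P.r1
  have hRz : R ≤ ‖z₀‖ := by
    have h1 : 1 - ‖z₀‖ ^ 2 ≤ n * (1 - ‖w‖ ^ 2) := by
      have h2 := one_add_mul_le_pow (a := ‖w‖ ^ 2 - 1) (by nlinarith [sq_nonneg ‖w‖]) n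
      have h3 : ‖z₀‖ ^ 2 = (1 + (‖w‖ ^ 2 - 1)) ^ n := by
        rw [hz1, add_sub_cancel, ← pow_mul, ← pow_mul, mul_comm]
      rw [h3]
      linarith
    have h4 : (n : ℝ) * (1 - ‖w‖ ^ 2) ≤ n * (1 - R2 ^ 2) := by
      apply mul_le_mul_of_nonneg_left _ (Nat.cast_nonneg n)
      have := P.r3
      nlinarith
    have h5 : (n : ℝ) * (1 - R2 ^ 2) ≤ n * (g * (1 - R ^ 2)) :=
      mul_le_mul_of_nonneg_left P.r5 (Nat.cast_nonneg n)
    have h6 : (n : ℝ) * (g * (1 - R ^ 2)) ≤ 1 - R ^ 2 := by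
      have h7 : 0 ≤ 1 - R ^ 2 := by
        have := P.r2
        nlinarith
      calc (n : ℝ) * (g * (1 - R ^ 2)) = (g * n) * (1 - R ^ 2) := by ring
        _ ≤ 1 * (1 - R ^ 2) := mul_le_mul_of_nonneg_right P.gn h7
        _ = 1 - R ^ 2 := one_mul _
    have h8 : R ^ 2 ≤ ‖z₀‖ ^ 2 := by linarith
    exact (pow_le_pow_iff_left₀ hR0.le (norm_nonneg _) two_ne_zero).mp h8
  obtain ⟨b, hb, hbm, hb0, hbp⟩ := P.root R z₀ w hR0 hRz hz₀ hwn
  have hna : -θ w ∈ ball (0 : ℂ) 1 := by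
    rw [mem_ball_zero_iff, norm_neg]
    rwa [mem_ball_zero_iff] at haw
  obtain ⟨-, hd, -, -, -, htn, -, -, -⟩ := hMOB (-θ w) hna
  obtain ⟨-, -, -, -, -, -, hti, htr, -⟩ := hMOB (θ w) haw
  refine ⟨fun z => tau (-θ w) (θ (b z)), ?_, ?_, ?_, ?_⟩
  · exact hd.comp (hθ.comp hb hbm) (fun z hz => hθm (hbm hz))
  · intro z hz
    have hz' : ‖z‖ < R := by rwa [mem_ball_zero_iff] at hz
    rw [mem_ball_zero_iff]
    show ‖tau (-θ w) (θ (b z))‖ < R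
    rw [htr _ (hθm (hbm hz))]
    refine lt_of_le_of_lt (P.con θ hT w hw (b z) (hbm hz) ?_) P.r1
    have h1 := (hbp z hz).2
    have h2 : g * (1 - R ^ 2) ≤ g * (1 - ‖z‖ ^ 2) := by
      apply mul_le_mul_of_nonneg_left _ P.g0.le
      have := norm_nonneg z
      nlinarith
    have h3 : rho w (b z) ^ 2 ≤ R2 ^ 2 := by
      have := P.r5
      linarith
    exact (pow_le_pow_iff_left₀ (hr1 w hw _ (hbm hz)).1 P.r3.le two_ne_zero).mp h3
  · show tau (-θ w) (θ (b 0)) = 0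
    rw [hb0]
    rw [neg_neg] at htn
    exact htn
  · intro z hz
    show (ff n c)^[j + 1] (φ (tau (θ w) (tau (-θ w) (θ (b z))))) = φ (tau a z)
    rw [(hti _ (hθm (hbm hz))).2, hφθ _ (hbm hz), hV _ (hbm hz), (hbp z hz).1]

end EX
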